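import Pool.Agent.Lib.MP_479d4c_gt.S.Iface

/-!
# Rows GEO, GEO2: Wirtinger derivatives of the surface
-/

set_option autoImplicit false

open ComplexConjugate Topology Metric

noncomputable section

namespace CMC82.H82

open CMC46 CMC82

/-- All first order data of a solution at the point `w`. -/
theorem data (cls : ClsS) (evd : EvdS) (aid : AidS) (clo : CloS) (pos : PosS)
    {d τ : ℝ} {k : ℕ → ℝ} {p1 p2 y z sg be ga : Arr} (h : Sol d τ k p1 p2 y z sg be ga)
    {w : ℂ} (hw : ‖w‖ < 6 / 5) :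
    ∃ U1 U2 V1 V2 S a1 a2 K : ℂ, ∃ s : ℝ, 0 < s ∧ S = s ∧
      ev2 p1 w (conj w) = U1 ∧ ev2 p2 w (conj w) = U2 ∧ ev2 p1 (conj w) w = V1 ∧
      ev2 p2 (conj w) w = V2 ∧ conj U1 = V1 ∧ conj U2 = V2 ∧ ev2 sg w (conj w) = S ∧
      S = U1 * V1 + d * (U2 * V2) ∧ U1 * a2 - U2 * a1 = w ^ 2 / 2 - 1 ∧
      HasW (fun x => ev2 p1 x (conj x)) a1 (-(d * (S * conj K * V2))) w ∧
      HasW (fun x => ev2 p2 x (conj x)) a2 (S * conj K * V1) w ∧
      HasW (fun x => ev2 p1 (conj x) x) (-(d * (S * K * U2))) (conj a1) w ∧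
      HasW (fun x => ev2 p2 (conj x) x) (S * K * U1) (conj a2) w ∧
      HasW (fun x => ev2 y x (conj x)) (K * (U1 * U2)) (conj K * (V1 * V2)) w ∧
      HasW (fun x => ev2 z x (conj x)) (K * U1 ^ 2) (-(d * (conj K * V2 ^ 2))) w ∧
      HasW (fun x => ev2 sg x (conj x)) (a1 * V1 + d * (a2 * V2))
        (conj a1 * U1 + d * (conj a2 * U2)) w := by
  obtain ⟨hFC, -, -, -, hcj, hck, -⟩ := cls
  have hw' : ‖conj w‖ < 6 / 5 := by rwa [RCLike.norm_conj]
  obtain ⟨s, hs0, hS, -, -⟩ := pos d τ k p1 p2 y z sg be ga h w hw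
  have hc : ∀ f : Arr, ev2 f (conj w) w = conj (ev2 f w (conj w)) := by
    intro f
    rw [hcj f w (conj w), Complex.conj_conj]
  have hSs : ev2 sg (conj w) w = s := by
    rw [hc sg, hS, Complex.conj_ofReal]
  have hK : ev1 k (conj w) = conj (ev1 k w) := (hck k w).symm
  have E1 := ((evd p1 (hFC p1 h.c1)).2 w hw)
  have E2 := ((evd p2 (hFC p2 h.c2)).2 w hw)
  have Ey := ((evd y (hFC y h.cy)).2 w hw).1
  have Ez := ((evd z (hFC z h.cz)).2 w hw).1
  have d1 := h.e1 w (conj w) hw hw'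
  have d1' := h.e1 (conj w) w hw' hw
  have d2 := h.e2 w (conj w) hw hw'
  have d2' := h.e2 (conj w) w hw' hw
  rw [hS, hK] at d1 d2
  rw [hSs] at d1' d2'
  have F1 := E1.1
  have G1 := E1.2
  have F2 := E2.1
  have G2 := E2.2
  rw [d1] at F1
  rw [d1', hc (dw p1)] at G1
  rw [d2] at F2
  rw [d2', hc (dw p2)] at G2
  rw [h.ey w (conj w) hw hw', (clo d τ k p1 p2 y z sg be ga h w (conj w) hw hw').1, hK] at Ey
  rw [h.ez w (conj w) hw hw', (clo d τ k p1 p2 y z sg be ga h w (conj w) hw hw').2.1, hK] at Ez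
  have hSe := h.hs w (conj w) hw hw'
  refine ⟨ev2 p1 w (conj w), ev2 p2 w (conj w), ev2 p1 (conj w) w, ev2 p2 (conj w) w, s,
    ev2 (dw p1) w (conj w), ev2 (dw p2) w (conj w), ev1 k w, s, hs0, rfl, rfl, rfl, rfl, rfl,
    (hc p1).symm, (hc p2).symm, hS, ?_, aid d τ k p1 p2 y z sg be ga h w (conj w) hw hw',
    F1, F2, G1, G2, Ey, Ez, ?_⟩
  · rw [← hS, hSe]
  · -- derivative of `sg`
    have H := (F1.mul G1).add ((F2.mul G2).const_smul (d : ℂ))
    have hev : (fun x => ev2 sg x (conj x)) =ᶠ[𝓝 w] fun x =>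
        ev2 p1 x (conj x) * ev2 p1 (conj x) x +
          (d : ℂ) • (ev2 p2 x (conj x) * ev2 p2 (conj x) x) := by
      have hn : ball (0 : ℂ) (6 / 5) ∈ 𝓝 w := isOpen_ball.mem_nhds (by simpa using hw)
      filter_upwards [hn] with x hx
      have hx1 : ‖x‖ < 6 / 5 := by simpa using hx
      have hx2 : ‖conj x‖ < 6 / 5 := by rwa [RCLike.norm_conj]
      rw [h.hs x (conj x) hx1 hx2, smul_eq_mul]
    refine (H.congr hev).cast ?_ ?_
    · simp only [smul_eq_mul]; ring
    · simp only [smul_eq_mul]; ring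

/-- Row GEO. -/
theorem geo_st (cls : ClsS) (evd : EvdS) (aid : AidS) (clo : CloS) (pos : PosS) : GeoS := by
  intro d τ k p1 p2 y z sg be ga h w hw
  obtain ⟨U1, U2, V1, V2, S, a1, a2, K, s, hs0, hSs, e1, e2, e3, e4, c1, c2, eS, hS, ha, F1, F2,
    G1, G2, Ey, Ez, ES⟩ := data cls evd aid clo pos h hw
  obtain ⟨hFC, -, -, -, hcj, hck, -⟩ := cls
  have hw' : ‖conj w‖ < 6 / 5 := by rwa [RCLike.norm_conj]
  have hn : ball (0 : ℂ) (6 / 5) ∈ 𝓝 w := isOpen_ball.mem_nhds (by simpa using hw)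
  have hS0 : S ≠ 0 := by rw [hSs]; exact_mod_cast hs0.ne'
  have hSc : conj S = S := by rw [hSs]; exact Complex.conj_ofReal s
  have hpt : ∀ x : ℂ, ‖x‖ < 6 / 5 →
      Zf d sg be x = (Real.sqrt d : ℂ) • (ev2 p1 x (conj x) * ev2 p2 (conj x) x *
        (ev2 sg x (conj x))⁻¹ - ev2 z x (conj x)) ∧
      Hf d sg ga x = (d : ℂ) • (ev2 p2 x (conj x) * ev2 p2 (conj x) x *
        (ev2 sg x (conj x))⁻¹ - ev2 y x (conj x)) := by
    intro x hx
    have hx' : ‖conj x‖ < 6 / 5 := by rwa [RCLike.norm_conj]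
    obtain ⟨s', hs', hS', -, -⟩ := pos d τ k p1 p2 y z sg be ga h x hx
    have hs0' : (s' : ℂ) ≠ 0 := by exact_mod_cast hs'.ne'
    have hb := h.hb x (conj x) hx hx'
    have hg := h.hg x (conj x) hx hx'
    have hcc : ∀ f : Arr, ev2 f (conj x) x = conj (ev2 f x (conj x)) := by
      intro f
      rw [hcj f x (conj x), Complex.conj_conj]
    constructor
    · rw [Zf, hb, hS', hcc p1, hcc z, hcc p2, smul_eq_mul]
      simp only [map_div₀, map_sub, map_mul, Complex.conj_conj, Complex.conj_ofReal]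
      field_simp
    · rw [Hf, hg, hS', smul_eq_mul]
      field_simp
  have hZ := ((F1.mul G2).mul (ES.inv (by rw [eS]; exact hS0))).sub Ez |>.const_smul (Real.sqrt d : ℂ)
  have hH := ((F2.mul G2).mul (ES.inv (by rw [eS]; exact hS0))).sub Ey |>.const_smul (d : ℂ)
  have hac : conj (w ^ 2 / 2 - 1) = V1 * conj a2 - V2 * conj a1 := by
    rw [← ha, map_sub, map_mul, map_mul, c1, c2]
  have hac' : conj w ^ 2 / 2 - 1 = V1 * conj a2 - V2 * conj a1 := by
    rw [← hac, map_sub, map_div₀, map_pow, map_one, map_ofNat]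
  constructor
  · refine (hZ.congr ?_).cast ?_ ?_
    · filter_upwards [hn] with x hx
      exact (hpt x (by simpa using hx)).1
    · simp only [gA, smul_eq_mul, e1, e2, e3, e4, eS]
      rw [← ha]
      field_simp
      rw [hS]
      ring
    · simp only [gB, smul_eq_mul, e1, e2, e3, e4, eS]
      rw [hac']
      field_simp
      rw [hS]
      ring
  · refine (hH.congr ?_).cast ?_ ?_
    · filter_upwards [hn] with x hx
      exact (hpt x (by simpa using hx)).2
    · simp only [gC, smul_eq_mul, e1, e2, e3, e4, eS]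
      rw [← ha]
      field_simp
      rw [hS]
      ring
    · simp only [gC, smul_eq_mul, e1, e2, e3, e4, eS, map_div₀, map_mul, map_pow, hac,
        Complex.conj_ofReal, hSc, ← c1, ← c2, Complex.conj_conj]
      simp only [c1, c2]
      field_simp
      rw [hS]
      ring

end CMC82.H82
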