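import Pool.Agent.Lib.MP_479d4c_gt.H82.Geo

/-!
# Row GEO2: second derivatives
-/

set_option autoImplicit false

open ComplexConjugate Topology Metric

noncomputable section

namespace CMC82.H82

open CMC46 CMC82

theorem hasW_a (w : ℂ) : HasW (fun x : ℂ => x ^ 2 / 2 - 1) w 0 w := by
  have h : HasDerivAt (fun x : ℂ => x ^ 2 / 2 - 1) w w := by
    have := ((hasDerivAt_pow 2 w).div_const 2).sub_const 1
    simpa using this
  exact hasW_of_hasDerivAt h

theorem hasW_ac (w : ℂ) : HasW (fun x : ℂ => conj x ^ 2 / 2 - 1) 0 (conj w) w := by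
  have h := (hasW_a w).st
  refine (h.congr ?_).cast (by simp) rfl
  refine Filter.Eventually.of_forall fun x => ?_
  simp [map_ofNat]

theorem geo2_st (cls : ClsS) (evd : EvdS) (aid : AidS) (clo : CloS) (pos : PosS) : Geo2S := by
  intro d τ k p1 p2 y z sg be ga h w hw A B C hA hB hC
  obtain ⟨U1, U2, V1, V2, S, a1, a2, K, s, hs0, hSs, e1, e2, e3, e4, c1, c2, eS, hS, ha, F1, F2,
    G1, G2, Ey, Ez, ES⟩ := data cls evd aid clo pos h hw
  have hS0 : S ≠ 0 := by rw [hSs]; exact_mod_cast hs0.ne'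
  have hSc : conj S = S := by rw [hSs]; exact Complex.conj_ofReal s
  have hd := h.d_pos
  have hr : (Real.sqrt d : ℂ) * (Real.sqrt d : ℂ) = d := by
    rw [← Complex.ofReal_mul, Real.mul_self_sqrt hd.le]
  obtain ⟨r, hrd⟩ : ∃ r : ℂ, (Real.sqrt d : ℂ) = r := ⟨_, rfl⟩
  have hrc : conj r = r := by rw [← hrd]; exact Complex.conj_ofReal _
  obtain ⟨D, hD⟩ : ∃ D : ℂ, (d : ℂ) = D := ⟨_, rfl⟩
  have hDc : conj D = D := by rw [← hD]; exact Complex.conj_ofReal _
  obtain ⟨a, haa⟩ : ∃ a : ℂ, w ^ 2 / 2 - 1 = a := ⟨_, rfl⟩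
  obtain ⟨ac, hcc⟩ : ∃ ac : ℂ, conj w ^ 2 / 2 - 1 = ac := ⟨_, rfl⟩
  have hac1 : conj a = ac := by
    rw [← haa, ← hcc, map_sub, map_div₀, map_pow, map_one, map_ofNat]
  have hac2 : conj ac = a := by rw [← hac1, Complex.conj_conj]
  rw [haa] at ha
  have hac : V1 * conj a2 - V2 * conj a1 = ac := by
    rw [← hac1, ← ha, map_sub, map_mul, map_mul, c1, c2]
  have c1' : conj V1 = U1 := by rw [← c1, Complex.conj_conj]
  have c2' : conj V2 = U2 := by rw [← c2, Complex.conj_conj]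
  rw [hrd, hD] at hr
  rw [hD] at hS
  have vA : A = -(r * D * a * V2 ^ 2 / S ^ 2) := by
    rw [hA, gA, e4, eS, hrd, hD, haa]
  have vB : B = r * ac * U1 ^ 2 / S ^ 2 := by
    rw [hB, gB, e1, eS, hrd, hcc]
  have vC : C = D * a * (V1 * V2) / S ^ 2 := by
    rw [hC, gC, e3, e4, eS, hD, haa]
  have vAc : conj A = -(r * D * ac * U2 ^ 2 / S ^ 2) := by
    rw [vA]; simp only [map_neg, map_div₀, map_mul, map_pow, hrc, hDc, hac1, c2', hSc]
  have vBc : conj B = r * a * V1 ^ 2 / S ^ 2 := by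
    rw [vB]; simp only [map_div₀, map_mul, map_pow, hrc, hac2, c1, hSc]
  have vCc : conj C = D * ac * (U1 * U2) / S ^ 2 := by
    rw [vC]; simp only [map_div₀, map_mul, map_pow, hDc, hac1, c1', c2', hSc]
  have hSn : ev2 sg w (conj w) ≠ 0 := by rw [eS]; exact hS0
  have ES2 := (ES.inv hSn).mul (ES.inv hSn)
  have HA := ((((hasW_a w).mul (G2.mul G2)).mul ES2).const_smul (-(r * D)))
  have HB := ((((hasW_ac w).mul (F1.mul F1)).mul ES2).const_smul r)
  have HC := ((((hasW_a w).mul (G1.mul G2)).mul ES2).const_smul D)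
  refine ⟨⟨_, (HA.congr ?_).cast rfl ?_⟩, ⟨_, (HB.congr ?_).cast ?_ rfl⟩,
    ⟨_, (HC.congr ?_).cast rfl ?_⟩, ?_, ?_⟩
  · refine Filter.Eventually.of_forall fun x => ?_
    simp only [gA, hrd, hD, smul_eq_mul, div_eq_mul_inv, mul_inv, inv_pow]
    ring
  · rw [vCc, vA, vC, vB]
    simp only [e4, eS, smul_eq_mul, haa]
    rw [hD]
    field_simp
    linear_combination (-2 * r * D * V2 * a * S * conj a2 - 2 * r * D * V2 * a * U1 * ac) * hS +
      (-2 * r * D * V2 * a * S * U1) * hac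
  · refine Filter.Eventually.of_forall fun x => ?_
    simp only [gB, hrd, smul_eq_mul, div_eq_mul_inv, mul_inv, inv_pow]
    ring
  · rw [vCc, vA, vC, vB]
    simp only [e1, eS, smul_eq_mul, hcc]
    rw [hD]
    field_simp
    linear_combination (2 * r * U1 * ac * S * a1 - 2 * r * U1 * ac * D * V2 * a) * hS +
      (-2 * r * U1 * ac * S * D * V2) * ha
  · refine Filter.Eventually.of_forall fun x => ?_
    simp only [gC, hD, smul_eq_mul, div_eq_mul_inv, mul_inv, inv_pow]
    ring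
  · rw [vAc, vBc, vA, vB]
    simp only [e3, e4, eS, smul_eq_mul, haa]
    rw [hD]
    field_simp
    linear_combination (D * S * a * (V2 * conj a1 + V1 * conj a2) +
      D * a * ac * (U1 * V1 - D * (U2 * V2))) * hS +
      (D * S * a * (U1 * V1 - D * (U2 * V2))) * hac -
      a * ac * (V1 ^ 2 * U1 ^ 2 - D ^ 2 * V2 ^ 2 * U2 ^ 2) * hr
  · rw [vA, vBc, vC]
    field_simp
    linear_combination (-(D * a ^ 2 * V1 ^ 2 * V2 ^ 2)) * hr
  · have hr0 : r ≠ 0 := by
      intro h0
      rw [h0, zero_mul, ← hD] at hr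
      have : d = 0 := by exact_mod_cast hr.symm
      exact hd.ne' this
    have hD0 : D ≠ 0 := by rw [← hr]; exact mul_ne_zero hr0 hr0
    have ha0 : a ≠ 0 := by
      rw [← haa]
      intro h0
      have h1 : w ^ 2 = 2 := by linear_combination 2 * h0
      have h2 : ‖w‖ ^ 2 = 2 := by rw [← norm_pow, h1]; simp
      have := norm_nonneg w
      nlinarith
    have hac0 : ac ≠ 0 := by
      rw [← hac1]
      exact (map_ne_zero _).2 ha0
    rcases eq_or_ne U1 0 with h1 | h1
    · left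
      have hV2 : V2 ≠ 0 := by
        rw [← c2]
        refine (map_ne_zero _).2 ?_
        intro h2
        rw [h1, h2] at ha
        simp only [zero_mul, sub_zero] at ha
        exact ha0 ha.symm
      rw [vA]
      exact neg_ne_zero.2 (div_ne_zero (mul_ne_zero (mul_ne_zero (mul_ne_zero hr0 hD0) ha0)
        (pow_ne_zero 2 hV2)) (pow_ne_zero 2 hS0))
    · right
      rw [vB]
      exact div_ne_zero (mul_ne_zero (mul_ne_zero hr0 hac0) (pow_ne_zero 2 h1)) (pow_ne_zero 2 hS0)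

end CMC82.H82
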