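import Pool.Agent.Lib.MP_479d4c_gt.S.Iface

/-!
# Row POS: `sg` is positive on the real slice, the height is real
-/

set_option autoImplicit false

open ComplexConjugate Topology Metric

noncomputable section

namespace CMC82.H82

open CMC46 CMC82

theorem norm_conj_lt {w : ℂ} (hw : ‖w‖ < 6 / 5) : ‖conj w‖ < 6 / 5 := by
  rwa [RCLike.norm_conj]

theorem a_ne {w : ℂ} (hw : ‖w‖ < 6 / 5) : w ^ 2 / 2 - 1 ≠ 0 := by
  intro h
  have h1 : w ^ 2 = 2 := by linear_combination 2 * h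
  have h2 : ‖w‖ ^ 2 = 2 := by rw [← norm_pow, h1]; simp
  have := norm_nonneg w
  nlinarith

/-- Row POS. -/
theorem pos_st (cls : ClsS) (aid : AidS) (clo : CloS) : PosS := by
  intro d τ k p1 p2 y z sg be ga h w hw
  obtain ⟨-, -, -, -, hcj, -, -⟩ := cls
  have hw' := norm_conj_lt hw
  have hc1 : ev2 p1 (conj w) w = conj (ev2 p1 w (conj w)) := by
    rw [hcj p1 w (conj w), Complex.conj_conj]
  have hc2 : ev2 p2 (conj w) w = conj (ev2 p2 w (conj w)) := by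
    rw [hcj p2 w (conj w), Complex.conj_conj]
  have hs := h.hs w (conj w) hw hw'
  have e1 : ev2 p1 w (conj w) * conj (ev2 p1 w (conj w)) = ((‖ev2 p1 w (conj w)‖ ^ 2 : ℝ) : ℂ) := by
    rw [Complex.mul_conj, Complex.normSq_eq_norm_sq]
  have e2 : ev2 p2 w (conj w) * conj (ev2 p2 w (conj w)) = ((‖ev2 p2 w (conj w)‖ ^ 2 : ℝ) : ℂ) := by
    rw [Complex.mul_conj, Complex.normSq_eq_norm_sq]
  rw [hc1, hc2, e1, e2] at hs
  have hs' : ev2 sg w (conj w) =
      ((‖ev2 p1 w (conj w)‖ ^ 2 + d * ‖ev2 p2 w (conj w)‖ ^ 2 : ℝ) : ℂ) := by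
    rw [hs]; push_cast; ring
  have hpos : 0 < ‖ev2 p1 w (conj w)‖ ^ 2 + d * ‖ev2 p2 w (conj w)‖ ^ 2 := by
    have hd := h.d_pos
    rcases eq_or_ne (ev2 p1 w (conj w)) 0 with h1 | h1
    · rcases eq_or_ne (ev2 p2 w (conj w)) 0 with h2 | h2
      · exfalso
        have := aid d τ k p1 p2 y z sg be ga h w (conj w) hw hw'
        rw [h1, h2, zero_mul, zero_mul, sub_zero] at this
        exact a_ne hw this.symm
      · have : 0 < ‖ev2 p2 w (conj w)‖ := norm_pos_iff.2 h2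
        positivity
    · have : 0 < ‖ev2 p1 w (conj w)‖ := norm_pos_iff.2 h1
      have h3 := norm_nonneg (ev2 p2 w (conj w))
      positivity
  refine ⟨_, hpos, hs', rfl, ?_⟩
  -- the height is real
  have hyc : conj (ev2 y w (conj w)) = ev2 y w (conj w) := by
    rw [hcj y w (conj w), Complex.conj_conj]
    exact (clo d τ k p1 p2 y z sg be ga h w (conj w) hw hw').2.2
  have hg := h.hg w (conj w) hw hw'
  rw [hc2, e2] at hg
  obtain ⟨r, hr⟩ : ∃ r : ℝ, ev2 y w (conj w) = r := ⟨_, (Complex.conj_eq_iff_real.1 hyc).choose_spec⟩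
  rw [hs', hr] at hg
  have : Hf d sg ga w = ((d * ((‖ev2 p2 w (conj w)‖ ^ 2 -
      (‖ev2 p1 w (conj w)‖ ^ 2 + d * ‖ev2 p2 w (conj w)‖ ^ 2) * r) /
      (‖ev2 p1 w (conj w)‖ ^ 2 + d * ‖ev2 p2 w (conj w)‖ ^ 2)) : ℝ) : ℂ) := by
    rw [Hf, hg, hs']; push_cast; ring
  rw [this]
  exact Complex.ofReal_im _

end CMC82.H82
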